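import Mathlib

/-!
# Borel sets with exactly `ℵ₁` many pairwise disjoint translates

For a set `B` of reals and a cardinal `κ` we say that `B` has `κ` many pairwise disjoint
translates if there is a set `X` of reals of cardinality `κ` such that `B + x` and `B + y` are
disjoint for all distinct `x, y ∈ X`.

Main theorem (`result`): there is a `Gδ` set `B ⊆ ℝ` which has `κ` many pairwise disjoint translates
exactly for `κ ≤ ℵ₁`. Consequently the assertion `every Borel set of reals with uncountably many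
pairwise disjoint translates has continuum many of them` is equivalent to the continuum
hypothesis.

## Outline of the proof

* `kk a` (for `a : ℕ → Bool`) runs through a Cantor set `K` of reals whose base `28` expansions are
  the characteristic functions of the branches of the binary tree. The set `K` is independent
  (`indep`), so a non-zero element `kk a - kk b` of `K - K` determines `(a, b)`.
* A sequence `a : ℕ → Bool` also codes a set of rationals (`Pts a`). Two sequences are adjacent
  (`Adj`) if they code well-ordered sets of different order types. The non-adjacency relation is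
  analytic. A set of pairwise adjacent sequences has at most `ℵ₁` elements, and `ℵ₁` is attained.
* `AA` is the complement of the set of all `kk a - kk b` with `a`, `b` adjacent. It is analytic. If
  all differences of distinct elements of `Y` avoid `AA` then `Y` has at most `ℵ₁` elements
  (`card_le`).
* Every analytic set `AA` of this kind is the difference set `B - B` of a `Gδ` set `B`. Write
  `AA = range φ` with `φ : (ℕ → ℕ) → ℝ` continuous. For each parameter `w` we put two points
  `s` and `s + φ w` in `B`, where both of them carry all of the information about `w`: the residues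
  modulo `28` are split in two separated classes, each of which has all residues as differences,
  so at each level one bit can be stored simultaneously in `s` and in `s + φ w`. The differences of
  two points carrying different information are not in `K - K`, because elements of `K - K` have
  small base `28` digits.
-/

open Set Cardinal Topology Ordinal Filter

namespace Pool.Agent.Results.MP_6a38e0_lc.DisjointTranslates

/-- `B` has `κ` many pairwise disjoint translates: there is a set `X` of `κ` many reals such that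
the translates `B + x`, `x ∈ X`, are pairwise disjoint. -/
def HasDisjointTranslates (B : Set ℝ) (κ : Cardinal.{0}) : Prop :=
  ∃ X : Set ℝ, #X = κ ∧
    ∀ x ∈ X, ∀ y ∈ X, x ≠ y → Disjoint ((fun b => b + x) '' B) ((fun b => b + y) '' B)

/-! ### Base `28` expansions -/

/-- The base `28` value of an integer sequence. -/
noncomputable def S (z : ℕ → ℤ) : ℝ := ∑' k, (z k : ℝ) * (1 / 28 : ℝ) ^ (k + 1)

lemma hasSum_geo (C : ℝ) : HasSum (fun k : ℕ => C * (1 / 28 : ℝ) ^ (k + 1)) (C / 27) := by
  have h := (hasSum_geometric_of_lt_one (r := (1/28 : ℝ)) (by norm_num) (by norm_num)).mul_left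
    (C * (1/28 : ℝ))
  have e : (1 - 1 / 28 : ℝ)⁻¹ = 28 / 27 := by norm_num
  have e2 : C * (1 / 28 : ℝ) * (28 / 27) = C / 27 := by ring
  have e3 : (fun k : ℕ => C * (1 / 28 : ℝ) ^ (k + 1)) = fun k => C * (1 / 28) * (1 / 28) ^ k := by
    ext k; ring
  rw [e, e2] at h
  rw [e3]
  exact h

lemma abs_term_le {z : ℕ → ℤ} {C : ℤ} (hz : ∀ k, |z k| ≤ C) (k : ℕ) :
    ‖(z k : ℝ) * (1 / 28 : ℝ) ^ (k + 1)‖ ≤ (C : ℝ) * (1 / 28 : ℝ) ^ (k + 1) := by
  rw [norm_mul, Real.norm_eq_abs, Real.norm_eq_abs, abs_of_pos (by positivity : (0:ℝ) < (1/28)^(k+1))]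
  apply mul_le_mul_of_nonneg_right _ (by positivity)
  exact_mod_cast hz k

lemma summable_S {z : ℕ → ℤ} {C : ℤ} (hz : ∀ k, |z k| ≤ C) :
    Summable (fun k : ℕ => (z k : ℝ) * (1 / 28 : ℝ) ^ (k + 1)) :=
  Summable.of_norm_bounded (hasSum_geo C).summable (abs_term_le hz)

lemma abs_S_le {z : ℕ → ℤ} {C : ℤ} (hz : ∀ k, |z k| ≤ C) : |S z| ≤ C / 27 := by
  have := tsum_of_norm_bounded (hasSum_geo (C : ℝ)) (abs_term_le hz)
  simpa [S] using this

lemma S_nonneg {z : ℕ → ℤ} (hz : ∀ k, 0 ≤ z k) : 0 ≤ S z := by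
  apply tsum_nonneg
  intro k
  have : (0 : ℝ) ≤ z k := by exact_mod_cast hz k
  positivity

lemma S_succ {z : ℕ → ℤ} {C : ℤ} (hz : ∀ k, |z k| ≤ C) :
    28 * S z = z 0 + S (fun k => z (k + 1)) := by
  unfold S
  rw [(summable_S hz).tsum_eq_zero_add, mul_add, ← tsum_mul_left]
  congr 1
  · norm_num
    ring
  · apply tsum_congr
    intro k
    ring

/-- Shifting: `28 ^ (n+1) * S z` is an integer divisible by `28`, plus `z n`, plus a tail. -/
lemma S_level {z : ℕ → ℤ} {C : ℤ} (hz : ∀ k, |z k| ≤ C) (n : ℕ) :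
    ∃ M : ℤ, (28 : ℝ) ^ (n + 1) * S z = ((28 * M + z n : ℤ) : ℝ) + S (fun k => z (n + 1 + k)) := by
  induction n with
  | zero =>
    refine ⟨0, ?_⟩
    have := S_succ hz
    simp only [zero_add, pow_one]
    rw [this]
    simp [add_comm]
  | succ n ih =>
    obtain ⟨M, hM⟩ := ih
    refine ⟨28 * M + z n, ?_⟩
    have hz' : ∀ k, |z (n + 1 + k)| ≤ C := fun k => hz _
    have h2 := S_succ hz'
    have e : (28 : ℝ) ^ (n + 1 + 1) * S z = 28 * ((28 : ℝ) ^ (n + 1) * S z) := by ring
    rw [e, hM, mul_add, h2]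
    push_cast
    have : (fun k => z (n + 1 + (k + 1))) = (fun k => z (n + 1 + 1 + k)) := by
      ext k; congr 1; ring
    rw [this]
    simp only [add_zero]
    ring

/-- Uniqueness of expansions with small coefficients. -/
lemma eq_zero_of_S_eq_zero {z : ℕ → ℤ} (hz : ∀ k, |z k| ≤ 26) (h : S z = 0) : ∀ n, z n = 0 := by
  intro n
  induction n using Nat.strong_induction_on with
  | _ n ih =>
    -- all previous digits vanish
    have key : ∀ m ≤ n, S (fun k => z (m + k)) = 0 := by
      intro m hm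
      induction m with
      | zero => simpa using h
      | succ m ihm =>
        have h1 := ihm (by omega)
        have h2 := S_succ (z := fun k => z (m + k)) (C := 26) (fun k => hz _)
        simp only [add_zero] at h2
        rw [h1, ih m (by omega)] at h2
        have : (fun k => z (m + (k + 1))) = (fun k => z (m + 1 + k)) := by
          ext k; congr 1; ring
        rw [this] at h2
        simpa using h2.symm
    have h1 := key n le_rfl
    have h2 := S_succ (z := fun k => z (n + k)) (C := 26) (fun k => hz _)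
    simp only [add_zero] at h2
    rw [h1] at h2
    have h3 := abs_S_le (z := fun k => z (n + (k + 1))) (C := 26) (fun k => hz _)
    have h4 : (z n : ℝ) = - S (fun k => z (n + (k + 1))) := by linarith
    have h5 : |(z n : ℝ)| < 1 := by
      rw [h4, abs_neg]
      refine lt_of_le_of_lt h3 (by norm_num)
    have h6 : |z n| < 1 := by exact_mod_cast h5
    exact Int.abs_lt_one_iff.mp h6


/-! ### Coding branches -/

/-- The code of the length `n` initial segment of `a`: a binary string with a leading `1`. -/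
def code (a : ℕ → Bool) : ℕ → ℕ
  | 0 => 1
  | n + 1 => 2 * code a n + (if a n then 1 else 0)

lemma code_lower (a : ℕ → Bool) (n : ℕ) : 2 ^ n ≤ code a n := by
  induction n with
  | zero => simp [code]
  | succ n ih => simp only [code, pow_succ]; omega

lemma code_upper (a : ℕ → Bool) (n : ℕ) : code a n < 2 ^ (n + 1) := by
  induction n with
  | zero => simp [code]
  | succ n ih => simp only [code, pow_succ] at ih ⊢; split_ifs <;> omega

lemma log_code (a : ℕ → Bool) (n : ℕ) : Nat.log 2 (code a n) = n := by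
  rw [Nat.log_eq_iff]
  · exact ⟨code_lower a n, code_upper a n⟩
  · right; constructor
    · norm_num
    · have := code_lower a n
      have h2 : 0 < 2 ^ n := by positivity
      omega

lemma code_eq_iff (a b : ℕ → Bool) (n : ℕ) : code a n = code b n ↔ ∀ i < n, a i = b i := by
  induction n with
  | zero => simp [code]
  | succ n ih =>
    simp only [code]
    constructor
    · intro h
      have h1 : code a n = code b n := by split_ifs at h <;> omega
      have h2 : a n = b n := by
        rw [h1] at h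
        cases ha : a n <;> cases hb : b n <;> simp_all
      intro i hi
      rcases Nat.lt_succ_iff_lt_or_eq.mp hi with h3 | h3
      · exact ih.mp h1 i h3
      · rw [h3]; exact h2
    · intro h
      rw [ih.mpr (fun i hi => h i (by omega)), h n (by omega)]

/-- Indicator function of the branch of `a`, a subset of `ℕ`. -/
def branch (a : ℕ → Bool) (m : ℕ) : ℤ := if code a (Nat.log 2 m) = m then 1 else 0

lemma branch_code (a b : ℕ → Bool) (n : ℕ) :
    branch a (code b n) = if ∀ i < n, a i = b i then 1 else 0 := by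
  unfold branch
  rw [log_code]
  simp only [code_eq_iff]

lemma abs_branch_le (a : ℕ → Bool) (m : ℕ) : |branch a m| ≤ 1 := by
  unfold branch; split_ifs <;> simp

/-- The independent Cantor set. -/
noncomputable def kk (a : ℕ → Bool) : ℝ := S (branch a)

/-- Finite sets of reals are separated at some level. -/
lemma exists_sep (F : Finset (ℕ → Bool)) : ∃ n, ∀ a ∈ F, ∀ b ∈ F, (∀ i < n, a i = b i) → a = b := by
  classical
  have : ∀ p : (ℕ → Bool) × (ℕ → Bool), ∃ n, (∀ i < n, p.1 i = p.2 i) → p.1 = p.2 := by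
    intro p
    by_cases h : p.1 = p.2
    · exact ⟨0, fun _ => h⟩
    · obtain ⟨i, hi⟩ := Function.ne_iff.mp h
      exact ⟨i + 1, fun h' => absurd (h' i (by omega)) hi⟩
  choose f hf using this
  refine ⟨(F ×ˢ F).sup f, fun a ha b hb hab => hf (a, b) (fun i hi => hab i ?_)⟩
  refine lt_of_lt_of_le hi (Finset.le_sup (f := f) (b := (a, b)) ?_)
  simp [ha, hb]

/-- Independence: a vanishing signed sum of six elements of the Cantor set is formally zero. -/
lemma indep (a₁ a₂ a₃ a₄ a₅ a₆ : ℕ → Bool)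
    (h : kk a₁ - kk a₂ - (kk a₃ - kk a₄) - (kk a₅ - kk a₆) = 0) (v : ℕ → Bool) :
    open Classical in
    (if a₁ = v then (1:ℤ) else 0) - (if a₂ = v then 1 else 0) - ((if a₃ = v then 1 else 0)
      - (if a₄ = v then 1 else 0)) - ((if a₅ = v then 1 else 0) - (if a₆ = v then 1 else 0)) = 0 := by
  classical
  let z : ℕ → ℤ := fun m => branch a₁ m - branch a₂ m - (branch a₃ m - branch a₄ m)
    - (branch a₅ m - branch a₆ m)
  have hz : ∀ k, |z k| ≤ 26 := by
    intro k
    have h1 := abs_le.mp (abs_branch_le a₁ k)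
    have h2 := abs_le.mp (abs_branch_le a₂ k)
    have h3 := abs_le.mp (abs_branch_le a₃ k)
    have h4 := abs_le.mp (abs_branch_le a₄ k)
    have h5 := abs_le.mp (abs_branch_le a₅ k)
    have h6 := abs_le.mp (abs_branch_le a₆ k)
    rw [abs_le]
    constructor <;> simp only [z] <;> omega
  have hS : S z = 0 := by
    rw [← h]
    have s1 := summable_S (abs_branch_le a₁)
    have s2 := summable_S (abs_branch_le a₂)
    have s3 := summable_S (abs_branch_le a₃)
    have s4 := summable_S (abs_branch_le a₄)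
    have s5 := summable_S (abs_branch_le a₅)
    have s6 := summable_S (abs_branch_le a₆)
    unfold kk S
    rw [← s1.tsum_sub s2, ← s3.tsum_sub s4, ← s5.tsum_sub s6, ← (s1.sub s2).tsum_sub (s3.sub s4),
      ← ((s1.sub s2).sub (s3.sub s4)).tsum_sub (s5.sub s6)]
    apply tsum_congr
    intro k
    simp only [z]
    push_cast
    ring
  have hz0 := eq_zero_of_S_eq_zero hz hS
  obtain ⟨n, hn⟩ := exists_sep {a₁, a₂, a₃, a₄, a₅, a₆, v}
  have h1 := hz0 (code v n)
  simp only [z, branch_code] at h1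
  have key : ∀ a ∈ ({a₁, a₂, a₃, a₄, a₅, a₆, v} : Finset (ℕ → Bool)),
      (∀ i < n, a i = v i) ↔ a = v := by
    intro a ha
    constructor
    · intro h; exact hn a ha v (by simp) h
    · rintro rfl; simp
  rw [if_congr (key a₁ (by simp)) rfl rfl, if_congr (key a₂ (by simp)) rfl rfl,
    if_congr (key a₃ (by simp)) rfl rfl, if_congr (key a₄ (by simp)) rfl rfl,
    if_congr (key a₅ (by simp)) rfl rfl, if_congr (key a₆ (by simp)) rfl rfl] at h1
  exact h1

lemma continuous_code (n : ℕ) : Continuous (fun a : ℕ → Bool => code a n) := by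
  induction n with
  | zero => simp only [code]; exact continuous_const
  | succ n ih =>
    simp only [code]
    have h1 : Continuous (fun a : ℕ → Bool => a n) := continuous_apply n
    have h2 : Continuous (fun b : Bool => if b then 1 else 0 : Bool → ℕ) := continuous_of_discreteTopology
    exact (ih.const_mul 2 : _).add (h2.comp h1)

lemma continuous_kk : Continuous kk := by
  unfold kk S
  apply continuous_tsum (u := fun k : ℕ => ((1 : ℤ) : ℝ) * (1 / 28 : ℝ) ^ (k + 1))
  · intro m
    have h1 : Continuous (fun a : ℕ → Bool => ((branch a m : ℤ) : ℝ)) := by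
      have h2 := continuous_code (Nat.log 2 m)
      have h3 : Continuous (fun c : ℕ => (((if c = m then 1 else 0 : ℤ)) : ℝ)) :=
        continuous_of_discreteTopology
      exact h3.comp h2
    exact h1.mul continuous_const
  · exact (hasSum_geo ((1 : ℤ) : ℝ)).summable
  · intro k a
    exact abs_term_le (abs_branch_le a) k

/-! ### Subsets of the rationals, coded by binary sequences -/

/-- An enumeration of the rationals. -/
noncomputable def enumQ : ℕ ≃ ℚ := (Denumerable.eqv ℚ).symm

/-- The set of rationals coded by `a`. -/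
def Pts (a : ℕ → Bool) : Type := {m : ℕ // a m = true}

noncomputable instance (a : ℕ → Bool) : LinearOrder (Pts a) :=
  LinearOrder.lift' (fun m : Pts a => enumQ m.1) (fun _ _ h => Subtype.ext (enumQ.injective h))

lemma Pts.lt_iff {a : ℕ → Bool} (x y : Pts a) : x < y ↔ enumQ x.1 < enumQ y.1 := Iff.rfl

instance (a : ℕ → Bool) : Countable (Pts a) := by unfold Pts; infer_instance

/-- `u` is a strictly decreasing sequence of elements of the set coded by `a`. -/
def Desc (a : ℕ → Bool) (u : ℕ → ℕ) : Prop :=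
  ∀ n, a (u n) = true ∧ enumQ (u (n + 1)) < enumQ (u n)

/-- `u` maps the set coded by `a` to the set coded by `b`, strictly increasing. -/
def Emb (a b : ℕ → Bool) (u : ℕ → ℕ) : Prop :=
  (∀ m, a m = true → b (u m) = true) ∧
    ∀ m m', a m = true → a m' = true → enumQ m < enumQ m' → enumQ (u m) < enumQ (u m')

/-- Witnesses for non-adjacency. -/
def Wit (a b : ℕ → Bool) (u v : ℕ → ℕ) : Prop :=
  Desc a u ∨ Desc b u ∨ (Emb a b u ∧ Emb b a v)

/-- Adjacency: both sets are well-ordered, of different order types (see `adj_iff`). -/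
def Adj (a b : ℕ → Bool) : Prop := ¬ ∃ u v, Wit a b u v

lemma wf_of_not_desc {a : ℕ → Bool} (h : ¬ ∃ u, Desc a u) : WellFoundedLT (Pts a) := by
  constructor
  rw [RelEmbedding.wellFounded_iff_isEmpty]
  constructor
  intro f
  apply h
  refine ⟨fun n => (f n).1, fun n => ⟨(f n).2, ?_⟩⟩
  have : f (n + 1) < f n := f.map_rel_iff.mpr (Nat.lt_succ_self n)
  exact this

lemma not_desc_of_wf {a : ℕ → Bool} [h : WellFoundedLT (Pts a)] : ¬ ∃ u, Desc a u := by
  rintro ⟨u, hu⟩
  have h1 : IsEmpty ((· > · : ℕ → ℕ → Prop) ↪r (· < · : Pts a → Pts a → Prop)) :=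
    RelEmbedding.wellFounded_iff_isEmpty.mp h.wf
  exact h1.elim (RelEmbedding.natGT (fun n => (⟨u n, (hu n).1⟩ : Pts a)) (fun n => (hu n).2))

open Classical in
/-- The order type of a well-ordered set of rationals (`0` if it is not well-ordered). -/
noncomputable def otp (a : ℕ → Bool) : Ordinal.{0} :=
  if h : WellFoundedLT (Pts a) then @Ordinal.type (Pts a) (· < ·) ⟨⟩ else 0

lemma otp_eq (a : ℕ → Bool) [h : WellFoundedLT (Pts a)] : otp a = typeLT (Pts a) := by
  unfold otp; exact dif_pos h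

lemma otp_lt (a : ℕ → Bool) : otp a < ω₁ := by
  by_cases h : WellFoundedLT (Pts a)
  · rw [otp_eq, ← ord_aleph, Cardinal.lt_ord, Ordinal.card_type]
    exact lt_of_le_of_lt (Cardinal.mk_le_aleph0) aleph0_lt_aleph_one
  · unfold otp; rw [dif_neg h]; exact omega_pos 1

lemma exists_emb {a b : ℕ → Bool} [WellFoundedLT (Pts a)] [WellFoundedLT (Pts b)]
    (h : typeLT (Pts a) ≤ typeLT (Pts b)) : ∃ u, Emb a b u := by
  classical
  rw [Ordinal.type_le_iff'] at h
  obtain ⟨f⟩ := h
  refine ⟨fun m => if hm : a m = true then (f ⟨m, hm⟩).1 else 0, ?_, ?_⟩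
  · intro m hm
    simp only [hm, dite_true]
    exact (f ⟨m, hm⟩).2
  · intro m m' hm hm' hlt
    simp only [hm, hm', dite_true]
    exact f.map_rel_iff.mpr hlt

lemma type_le_of_emb {a b : ℕ → Bool} [WellFoundedLT (Pts a)] [WellFoundedLT (Pts b)] {u : ℕ → ℕ}
    (h : Emb a b u) : typeLT (Pts a) ≤ typeLT (Pts b) := by
  rw [Ordinal.type_le_iff']
  let g : Pts a → Pts b := fun m => ⟨u m.1, h.1 m.1 m.2⟩
  have hg : StrictMono g := fun x y hxy => h.2 x.1 y.1 x.2 y.2 hxy
  exact ⟨(OrderEmbedding.ofStrictMono g hg).ltEmbedding⟩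

/-- Adjacency means: both are well-ordered, with different order types. -/
lemma adj_iff (a b : ℕ → Bool) :
    Adj a b ↔ WellFoundedLT (Pts a) ∧ WellFoundedLT (Pts b) ∧ otp a ≠ otp b := by
  constructor
  · intro h
    have ha : WellFoundedLT (Pts a) := wf_of_not_desc fun ⟨u, hu⟩ => h ⟨u, u, Or.inl hu⟩
    have hb : WellFoundedLT (Pts b) := wf_of_not_desc fun ⟨u, hu⟩ => h ⟨u, u, Or.inr (Or.inl hu)⟩
    refine ⟨ha, hb, ?_⟩
    intro heq
    rw [otp_eq, otp_eq] at heq
    obtain ⟨u, hu⟩ := exists_emb (a := a) (b := b) heq.le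
    obtain ⟨v, hv⟩ := exists_emb (a := b) (b := a) heq.ge
    exact h ⟨u, v, Or.inr (Or.inr ⟨hu, hv⟩)⟩
  · rintro ⟨ha, hb, hne⟩ ⟨u, v, h | h | ⟨h1, h2⟩⟩
    · exact not_desc_of_wf ⟨u, h⟩
    · exact not_desc_of_wf ⟨u, h⟩
    · apply hne
      rw [otp_eq, otp_eq]
      exact le_antisymm (type_le_of_emb h1) (type_le_of_emb h2)

lemma exists_otp (o : Ordinal.{0}) (ho : o < ω₁) :
    ∃ a : ℕ → Bool, WellFoundedLT (Pts a) ∧ otp a = o := by
  classical
  have hc : Countable o.ToType := by
    rw [← Cardinal.mk_le_aleph0_iff, Cardinal.mk_toType, ← Order.lt_succ_iff, ← aleph_zero,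
      succ_aleph, zero_add, ← Cardinal.lt_ord, ord_aleph]
    exact ho
  obtain ⟨f⟩ := Order.embedding_from_countable_to_dense o.ToType ℚ
  let a : ℕ → Bool := fun m => decide (enumQ m ∈ range f)
  let g : o.ToType → Pts a := fun x => ⟨enumQ.symm (f x), by simp [a]⟩
  have hg : StrictMono g := by
    intro x y hxy
    rw [Pts.lt_iff]
    simpa [g] using hxy
  have hs : Function.Surjective g := by
    rintro ⟨m, hm⟩
    simp only [a, decide_eq_true_eq] at hm
    obtain ⟨x, hx⟩ := hm
    refine ⟨x, Subtype.ext ?_⟩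
    simp [g, hx]
  let e : o.ToType ≃o Pts a := StrictMono.orderIsoOfSurjective g hg hs
  have hwf : WellFoundedLT (Pts a) := e.symm.toOrderEmbedding.wellFoundedLT
  refine ⟨a, hwf, ?_⟩
  rw [otp_eq, ← Ordinal.type_toType o]
  exact (Ordinal.type_eq.mpr ⟨e.toRelIsoLT⟩).symm


/-! ### The difference set of the Cantor set, and the analytic set -/

/-- Differences of elements of the Cantor set. -/
noncomputable def diff (p : (ℕ → Bool) × (ℕ → Bool)) : ℝ := kk p.1 - kk p.2

lemma continuous_diff : Continuous diff :=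
  (continuous_kk.comp continuous_fst).sub (continuous_kk.comp continuous_snd)

/-- The closed set of witnesses. -/
def WitSet : Set (((ℕ → Bool) × (ℕ → Bool)) × ((ℕ → ℕ) × (ℕ → ℕ))) :=
  {p | Wit p.1.1 p.1.2 p.2.1 p.2.2}

lemma isClosed_discrete_cond {X D : Type*} [TopologicalSpace X] [TopologicalSpace D]
    [DiscreteTopology D] {f : X → D} (hf : Continuous f) (P : D → Prop) : IsClosed {x | P (f x)} :=
  (isClosed_discrete {d | P d}).preimage hf

lemma continuous_ev : Continuous (fun p : (ℕ → Bool) × ℕ => p.1 p.2) :=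
  continuous_prod_of_discrete_right.mpr fun n => continuous_apply n

lemma isClosed_desc {X : Type*} [TopologicalSpace X] {f : X → ℕ → Bool} {g : X → ℕ → ℕ}
    (hf : Continuous f) (hg : Continuous g) : IsClosed {x | Desc (f x) (g x)} := by
  have : {x | Desc (f x) (g x)} =
      ⋂ n, {x | f x (g x n) = true ∧ enumQ (g x (n + 1)) < enumQ (g x n)} := by
    ext x; simp [Desc]
  rw [this]
  refine isClosed_iInter fun n => ?_
  have c1 : Continuous fun x => (f x (g x n), g x (n + 1), g x n) :=
    (continuous_ev.comp (hf.prodMk ((continuous_apply n).comp hg))).prodMk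
      (((continuous_apply (n + 1)).comp hg).prodMk ((continuous_apply n).comp hg))
  exact isClosed_discrete_cond c1 (fun d => d.1 = true ∧ enumQ d.2.1 < enumQ d.2.2)

lemma isClosed_emb {X : Type*} [TopologicalSpace X] {f f' : X → ℕ → Bool} {g : X → ℕ → ℕ}
    (hf : Continuous f) (hf' : Continuous f') (hg : Continuous g) :
    IsClosed {x | Emb (f x) (f' x) (g x)} := by
  have : {x | Emb (f x) (f' x) (g x)} =
      (⋂ m, {x | f x m = true → f' x (g x m) = true}) ∩
      ⋂ m, ⋂ m', {x | f x m = true → f x m' = true → enumQ m < enumQ m' →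
        enumQ (g x m) < enumQ (g x m')} := by
    ext x; simp [Emb]
  rw [this]
  refine (isClosed_iInter fun m => ?_).inter (isClosed_iInter fun m => isClosed_iInter fun m' => ?_)
  · have c1 : Continuous fun x => (f x m, f' x (g x m)) :=
      ((continuous_apply m).comp hf).prodMk
        (continuous_ev.comp (hf'.prodMk ((continuous_apply m).comp hg)))
    exact isClosed_discrete_cond c1 (fun d => d.1 = true → d.2 = true)
  · have c1 : Continuous fun x => ((f x m, f x m'), (g x m, g x m')) :=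
      (((continuous_apply m).comp hf).prodMk ((continuous_apply m').comp hf)).prodMk
        (((continuous_apply m).comp hg).prodMk ((continuous_apply m').comp hg))
    exact isClosed_discrete_cond c1 (fun d => d.1.1 = true → d.1.2 = true → enumQ m < enumQ m' →
        enumQ d.2.1 < enumQ d.2.2)

lemma isClosed_witSet : IsClosed WitSet := by
  have c1 : Continuous fun p : ((ℕ → Bool) × (ℕ → Bool)) × ((ℕ → ℕ) × (ℕ → ℕ)) => p.1.1 := by
    fun_prop
  have c2 : Continuous fun p : ((ℕ → Bool) × (ℕ → Bool)) × ((ℕ → ℕ) × (ℕ → ℕ)) => p.1.2 := by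
    fun_prop
  have c3 : Continuous fun p : ((ℕ → Bool) × (ℕ → Bool)) × ((ℕ → ℕ) × (ℕ → ℕ)) => p.2.1 := by
    fun_prop
  have c4 : Continuous fun p : ((ℕ → Bool) × (ℕ → Bool)) × ((ℕ → ℕ) × (ℕ → ℕ)) => p.2.2 := by
    fun_prop
  exact (isClosed_desc c1 c3).union ((isClosed_desc c2 c3).union
    ((isClosed_emb c1 c2 c3).inter (isClosed_emb c2 c1 c4)))

/-- The set whose complement consists of the differences `kk a - kk b` with `a`, `b` adjacent. -/
def AA : Set ℝ := (range diff)ᶜ ∪ (fun p => diff p.1) '' WitSet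

lemma analyticSet_AA : MeasureTheory.AnalyticSet AA := by
  have h1 : MeasureTheory.AnalyticSet ((range diff)ᶜ) := by
    have : IsClosed (range diff) := (isCompact_range continuous_diff).isClosed
    exact this.isOpen_compl.measurableSet.analyticSet
  have : PolishSpace (((ℕ → Bool) × (ℕ → Bool)) × ((ℕ → ℕ) × (ℕ → ℕ))) := { }
  have h2 : MeasureTheory.AnalyticSet ((fun p => diff p.1) '' WitSet) :=
    isClosed_witSet.analyticSet.image_of_continuous (continuous_diff.comp continuous_fst)
  unfold AA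
  rw [Set.union_eq_iUnion]
  exact MeasureTheory.AnalyticSet.iUnion (by rintro (_ | _) <;> simpa)

lemma kk_injective {a b : ℕ → Bool} (h : kk a = kk b) : a = b := by
  classical
  have := indep a b a a a a (by rw [h]; ring) a
  by_contra hne
  simp [Ne.symm hne] at this

lemma Adj.ne {a b : ℕ → Bool} (h : Adj a b) : a ≠ b := by
  rintro rfl
  rw [adj_iff] at h
  exact h.2.2 rfl

lemma Adj.symm {a b : ℕ → Bool} (h : Adj a b) : Adj b a := by
  rw [adj_iff] at h ⊢
  exact ⟨h.2.1, h.1, h.2.2.symm⟩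

lemma diff_inj {a b c d : ℕ → Bool} (hab : a ≠ b) (h : diff (a, b) = diff (c, d)) :
    a = c ∧ b = d := by
  classical
  have h' : kk a - kk b - (kk c - kk d) - (kk a - kk a) = 0 := by
    simp only [diff] at h; linarith
  have h1 := indep a b c d a a h' a
  have h2 := indep a b c d a a h' b
  simp only [if_true, if_neg hab, if_neg (Ne.symm hab)] at h1 h2
  constructor
  · by_contra hne
    rw [if_neg (Ne.symm hne)] at h1
    split_ifs at h1 <;> omega
  · by_contra hne
    rw [if_neg (Ne.symm hne)] at h2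
    split_ifs at h2 <;> omega

lemma notMem_AA_iff (t : ℝ) : t ∉ AA ↔ ∃ a b, Adj a b ∧ diff (a, b) = t := by
  constructor
  · intro h
    simp only [AA, mem_union, mem_compl_iff, not_or, not_not] at h
    obtain ⟨⟨⟨a, b⟩, hab⟩, h2⟩ := h
    refine ⟨a, b, ?_, hab⟩
    rintro ⟨u, v, huv⟩
    exact h2 ⟨((a, b), (u, v)), huv, hab⟩
  · rintro ⟨a, b, hab, rfl⟩ h
    rcases h with h | ⟨⟨⟨c, d⟩, ⟨u, v⟩⟩, hw, heq⟩
    · exact h ⟨_, rfl⟩
    · obtain ⟨h1, h2⟩ := diff_inj hab.ne heq.symm
      subst h1 h2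
      exact hab ⟨u, v, hw⟩

/-- Combinatorial heart of the upper bound. -/
lemma share {a b c d e f : ℕ → Bool} (hab : a ≠ b) (hcd : c ≠ d) (hef : e ≠ f)
    (h : diff (a, b) - diff (c, d) = diff (e, f)) :
    (a = c ∧ e = d ∧ f = b) ∨ (b = d ∧ e = a ∧ f = c) := by
  classical
  have h' : kk a - kk b - (kk c - kk d) - (kk e - kk f) = 0 := by
    simp only [diff] at h; linarith
  have H := indep a b c d e f h'
  have Ha := H a
  have Hb := H b
  have Hc := H c
  have Hd := H d
  have He := H e
  have Hf := H f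
  by_cases hac : a = c
  · left
    subst hac
    refine ⟨rfl, ?_, ?_⟩
    · by_contra hne
      simp only [if_true, if_neg hne, if_neg (Ne.symm hne), if_neg (Ne.symm hef)] at Hd He
      split_ifs at Hd He <;> omega
    · by_contra hne
      simp only [if_true, if_neg hne, if_neg (Ne.symm hne), if_neg hef] at Hb Hf
      split_ifs at Hb Hf <;> omega
  · by_cases hbd : b = d
    · right
      subst hbd
      refine ⟨rfl, ?_, ?_⟩
      · by_contra hne
        simp only [if_true, if_neg hne, if_neg (Ne.symm hne), if_neg (Ne.symm hef),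
          if_neg (Ne.symm hac)] at Ha He
        split_ifs at Ha He <;> omega
      · by_contra hne
        simp only [if_true, if_neg hne, if_neg (Ne.symm hne), if_neg hef, if_neg hac] at Hc Hf
        split_ifs at Hc Hf <;> omega
    · exfalso
      simp only [if_true, if_neg hab, if_neg (Ne.symm hab), if_neg hcd, if_neg (Ne.symm hcd),
        if_neg hac, if_neg (Ne.symm hac), if_neg hbd, if_neg (Ne.symm hbd)] at Ha Hb Hc Hd
      have hae : e = a := by
        by_contra hne
        rw [if_neg hne] at Ha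
        split_ifs at Ha <;> omega
      subst hae
      simp only [if_true, if_neg (Ne.symm hef)] at Ha
      have hda : d ≠ e := by
        intro h1; rw [if_pos h1] at Ha; omega
      rw [if_neg hda.symm] at Hd
      split_ifs at Hd <;> omega

lemma mk_omega1 : #(ω₁ : Ordinal.{0}).ToType = ℵ₁ := by
  rw [Cardinal.mk_toType, ← ord_aleph, card_ord]

/-- There is a clique of size `ℵ₁`. -/
lemma exists_clique : ∃ P : Set (ℕ → Bool), #P = ℵ₁ ∧ ∀ a ∈ P, ∀ b ∈ P, a ≠ b → Adj a b := by
  have h : ∀ o : (ω₁ : Ordinal.{0}).ToType, ∃ a : ℕ → Bool, WellFoundedLT (Pts a) ∧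
      otp a = (ToType.mk.symm o).1 := fun o => exists_otp _ (ToType.mk.symm o).2
  choose f hf1 hf2 using h
  have hinj : Function.Injective f := by
    intro o o' h
    have := hf2 o
    rw [h, hf2 o'] at this
    exact ToType.mk.symm.injective (Subtype.ext this.symm)
  refine ⟨range f, ?_, ?_⟩
  · rw [Cardinal.mk_range_eq f hinj, mk_omega1]
  · rintro _ ⟨o, rfl⟩ _ ⟨o', rfl⟩ hne
    rw [adj_iff]
    refine ⟨hf1 o, hf1 o', ?_⟩
    intro h
    rw [hf2, hf2] at h
    exact hne (congrArg f (ToType.mk.symm.injective (Subtype.ext h)))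

/-- Every clique for the Cayley graph has size at most `ℵ₁`. -/
lemma card_le (Y : Set ℝ) (hY : ∀ x ∈ Y, ∀ y ∈ Y, x ≠ y → x - y ∉ AA) : #Y ≤ ℵ₁ := by
  classical
  rcases Y.eq_empty_or_nonempty with rfl | ⟨y₀, hy₀⟩
  · simp
  have h : ∀ y : Y, ∃ a b : ℕ → Bool, y.1 ≠ y₀ → Adj a b ∧ diff (a, b) = y.1 - y₀ := by
    intro y
    by_cases hy : y.1 = y₀
    · exact ⟨fun _ => true, fun _ => true, fun h => absurd hy h⟩
    · obtain ⟨a, b, h1, h2⟩ := (notMem_AA_iff _).mp (hY y.1 y.2 y₀ hy₀ hy)
      exact ⟨a, b, fun _ => ⟨h1, h2⟩⟩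
  choose a b hab using h
  let f : Y → Option ((ω₁ : Ordinal.{0}).ToType × (ω₁ : Ordinal.{0}).ToType) := fun y =>
    if y.1 = y₀ then none else
      some (ToType.mk ⟨otp (a y), otp_lt _⟩, ToType.mk ⟨otp (b y), otp_lt _⟩)
  have hf : Function.Injective f := by
    intro y y' hyy
    by_cases h1 : y.1 = y₀
    · by_cases h2 : y'.1 = y₀
      · exact Subtype.ext (h1.trans h2.symm)
      · simp [f, h1, h2] at hyy
    · by_cases h2 : y'.1 = y₀
      · simp [f, h1, h2] at hyy
      · simp only [f, h1, h2, if_false, Option.some.injEq, Prod.mk.injEq,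
          EmbeddingLike.apply_eq_iff_eq] at hyy
        by_contra hne
        have hne' : y.1 ≠ y'.1 := fun h => hne (Subtype.ext h)
        obtain ⟨c, d, hcd, hd⟩ := (notMem_AA_iff _).mp (hY y.1 y.2 y'.1 y'.2 hne')
        obtain ⟨A1, D1⟩ := hab y h1
        obtain ⟨A2, D2⟩ := hab y' h2
        have key : diff (a y, b y) - diff (a y', b y') = diff (c, d) := by
          rw [D1, D2, hd]; ring
        rw [adj_iff] at hcd
        rcases share A1.ne A2.ne (fun h => hcd.2.2 (by rw [h])) key with ⟨-, h3, h4⟩ | ⟨-, h3, h4⟩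
        · exact hcd.2.2 (by rw [h3, h4]; exact (congrArg Subtype.val hyy.2).symm)
        · exact hcd.2.2 (by rw [h3, h4]; exact congrArg Subtype.val hyy.1)
  calc #Y ≤ #(Option ((ω₁ : Ordinal.{0}).ToType × (ω₁ : Ordinal.{0}).ToType)) :=
        Cardinal.mk_le_of_injective hf
    _ = ℵ₁ := by
        rw [Cardinal.mk_option, Cardinal.mk_prod, mk_omega1, Cardinal.lift_id,
          Cardinal.mul_eq_self (aleph0_le_aleph 1), Cardinal.add_one_eq (aleph0_le_aleph 1)]


/-! ### Two separated classes of residues modulo `28` -/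

/-- The residues used for the message bit `ε`. -/
def residues (ε : Bool) : Finset ℤ :=
  if ε then {0, 1, 2, 3, 4, 5, 12, 13, 26, 27} else {8, 9, 16, 17, 18, 19, 20, 21, 22, 23}

/-- The integer `m` belongs to the class for the message bit `ε`. -/
def Good (ε : Bool) (m : ℤ) : Prop := m % 28 ∈ residues ε

lemma exists_digit (ε : Bool) (j : ℤ) :
    ∃ d : ℤ, 0 ≤ d ∧ d ≤ 27 ∧ Good ε d ∧ Good ε (d + j) ∧ Good ε (d + j + 1) := by
  have key : ∀ ε : Bool, ∀ j ∈ Finset.Ico (0:ℤ) 28, ∃ d ∈ Finset.Ico (0:ℤ) 28,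
      d % 28 ∈ residues ε ∧ (d + j) % 28 ∈ residues ε ∧ (d + j + 1) % 28 ∈ residues ε := by
    decide
  obtain ⟨d, hd, h1, h2, h3⟩ := key ε (j % 28) (by simp; omega)
  rw [Finset.mem_Ico] at hd
  refine ⟨d, hd.1, by omega, h1, ?_, ?_⟩
  · unfold Good
    rwa [show (d + j) % 28 = (d + j % 28) % 28 by omega]
  · unfold Good
    rwa [show (d + j + 1) % 28 = (d + j % 28 + 1) % 28 by omega]

lemma good_sep {m m' : ℤ} (h : Good false m) (h' : Good true m') (N : ℤ) :
    3 ≤ |m - m' - 28 * N| := by
  have key : ∀ r ∈ residues false, ∀ r' ∈ residues true, 3 ≤ (r - r') % 28 ∧ (r - r') % 28 ≤ 25 := by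
    decide
  have := key _ h _ h'
  rw [le_abs]
  omega

lemma good_congr {ε : Bool} {m m' : ℤ} (k : ℤ) (h : m' = 28 * k + m) (hm : Good ε m) : Good ε m' := by
  unfold Good at *
  rwa [show m' % 28 = m % 28 by omega]

/-- At level `n`, the real `t` carries the message bit `ε`. -/
def Lev (ε : Bool) (n : ℕ) (t : ℝ) : Prop :=
  ∃ m : ℤ, Good ε m ∧ (m : ℝ) ≤ 28 ^ (n + 1) * t ∧ 28 ^ (n + 1) * t ≤ m + 1

lemma diff_level (p : (ℕ → Bool) × (ℕ → Bool)) (n : ℕ) :
    ∃ M : ℤ, |28 ^ (n + 1) * diff p - 28 * M| < 2 := by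
  let z : ℕ → ℤ := fun m => branch p.1 m - branch p.2 m
  have hz1 : ∀ k, |z k| ≤ 1 := by
    intro k
    simp only [z, branch]
    split_ifs <;> simp
  have hS : S z = diff p := by
    have s1 := summable_S (abs_branch_le p.1)
    have s2 := summable_S (abs_branch_le p.2)
    unfold diff kk S
    rw [← s1.tsum_sub s2]
    apply tsum_congr
    intro k
    simp only [z]
    push_cast
    ring
  obtain ⟨M, hM⟩ := S_level hz1 n
  refine ⟨M, ?_⟩
  have h3 := abs_S_le (z := fun k => z (n + 1 + k)) (C := 1) (fun k => hz1 _)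
  rw [← hS, hM]
  have h4 : |(z n : ℝ)| ≤ 1 := by exact_mod_cast hz1 n
  push_cast at h3 ⊢
  rw [show (28 * (M : ℝ) + z n + S (fun k => z (n + 1 + k)) - 28 * M) =
    z n + S (fun k => z (n + 1 + k)) by ring]
  calc |(z n : ℝ) + S (fun k => z (n + 1 + k))| ≤ |(z n : ℝ)| + |S (fun k => z (n + 1 + k))| :=
        abs_add_le _ _
    _ ≤ 1 + 1 / 27 := add_le_add h4 h3
    _ < 2 := by norm_num

lemma lev_sep {n : ℕ} {s s' : ℝ} (h : Lev false n s) (h' : Lev true n s')
    (p : (ℕ → Bool) × (ℕ → Bool)) : s - s' ≠ diff p := by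
  intro heq
  obtain ⟨m, hm, h1, h2⟩ := h
  obtain ⟨m', hm', h1', h2'⟩ := h'
  obtain ⟨M, hM⟩ := diff_level p n
  have h3 := good_sep hm hm' M
  rw [← heq, _root_.mul_sub] at hM
  rw [abs_lt] at hM
  have h4 : |((m - m' - 28 * M : ℤ) : ℝ)| < 3 := by
    push_cast
    rw [abs_lt]
    constructor <;> linarith [hM.1, hM.2]
  have h5 : |m - m' - 28 * M| < 3 := by exact_mod_cast h4
  omega

lemma lev_disjoint {n : ℕ} {s : ℝ} (h : Lev false n s) (h' : Lev true n s) : False :=
  lev_sep h h' (fun _ => true, fun _ => true) (by simp [diff])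

lemma diff_swap (a b : ℕ → Bool) : diff (a, b) = - diff (b, a) := by simp [diff]

lemma lev_sep' {n : ℕ} {s s' : ℝ} {ε ε' : Bool} (hne : ε ≠ ε') (h : Lev ε n s) (h' : Lev ε' n s')
    (p : (ℕ → Bool) × (ℕ → Bool)) : s - s' ≠ diff p := by
  cases ε <;> cases ε'
  · exact absurd rfl hne
  · exact lev_sep h h' p
  · intro heq
    apply lev_sep h' h p.swap
    have := diff_swap p.1 p.2
    simp only [Prod.swap]
    linarith
  · exact absurd rfl hne

/-! ### The parameter space and the coding -/

/-- Indices of message bits. -/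
noncomputable def idx : ℕ ≃ (ℕ × ℕ) ⊕ (ℕ × ℤ) := (Denumerable.eqv _).symm

/-- The message bits of `p`: they determine `p` completely. -/
noncomputable def msg (p : (ℕ → ℕ) × (ℕ → ℤ)) (n : ℕ) : Bool :=
  match idx n with
  | Sum.inl i => decide (p.1 i.1 = i.2)
  | Sum.inr i => decide (p.2 i.1 = i.2)

lemma msg_inl (p : (ℕ → ℕ) × (ℕ → ℤ)) (i m : ℕ) :
    msg p (idx.symm (Sum.inl (i, m))) = decide (p.1 i = m) := by
  simp [msg]

lemma msg_inr (p : (ℕ → ℕ) × (ℕ → ℤ)) (i : ℕ) (m : ℤ) :
    msg p (idx.symm (Sum.inr (i, m))) = decide (p.2 i = m) := by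
  simp [msg]

lemma msg_injective : Function.Injective msg := by
  intro p q h
  refine Prod.ext (funext fun i => ?_) (funext fun i => ?_)
  · have := congrFun h (idx.symm (Sum.inl (i, q.1 i)))
    rw [msg_inl, msg_inl] at this
    simpa using this
  · have := congrFun h (idx.symm (Sum.inr (i, q.2 i)))
    rw [msg_inr, msg_inr] at this
    simpa using this

lemma continuous_msg (n : ℕ) : Continuous fun p => msg p n := by
  unfold msg
  rcases idx n with i | i
  · exact (continuous_of_discreteTopology (f := fun k : ℕ => decide (k = i.2))).comp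
      ((continuous_apply i.1).comp continuous_fst)
  · exact (continuous_of_discreteTopology (f := fun k : ℤ => decide (k = i.2))).comp
      ((continuous_apply i.1).comp continuous_snd)

/-- The digit function. -/
noncomputable def dig (ε : Bool) (j : ℤ) : ℤ := (exists_digit ε j).choose

lemma dig_spec (ε : Bool) (j : ℤ) : 0 ≤ dig ε j ∧ dig ε j ≤ 27 ∧ Good ε (dig ε j) ∧
    Good ε (dig ε j + j) ∧ Good ε (dig ε j + j + 1) := (exists_digit ε j).choose_spec

/-- The point coding the parameter `p`. -/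
noncomputable def gg (p : (ℕ → ℕ) × (ℕ → ℤ)) : ℝ := S fun n => dig (msg p n) (p.2 n)

lemma abs_dig_le (ε : Bool) (j : ℤ) : |dig ε j| ≤ 27 := by
  have := dig_spec ε j
  rw [abs_le]; omega

lemma continuous_gg : Continuous gg := by
  unfold gg S
  apply continuous_tsum (u := fun k : ℕ => ((27 : ℤ) : ℝ) * (1 / 28 : ℝ) ^ (k + 1))
  · intro n
    have h1 : Continuous (fun p : (ℕ → ℕ) × (ℕ → ℤ) => (msg p n, p.2 n)) :=
      (continuous_msg n).prodMk ((continuous_apply n).comp continuous_snd)
    have h3 : Continuous (fun c : Bool × ℤ => ((dig c.1 c.2 : ℤ) : ℝ)) :=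
      continuous_of_discreteTopology
    exact (h3.comp h1).mul continuous_const
  · exact (hasSum_geo ((27 : ℤ) : ℝ)).summable
  · intro k p
    exact abs_term_le (z := fun n => dig (msg p n) (p.2 n)) (fun n => abs_dig_le _ _) k

variable (φ : (ℕ → ℕ) → ℝ)

/-- The parameter space: `p.2` consists of the integer parts of `28 ^ (n+1) * φ p.1`. -/
def Par : Set ((ℕ → ℕ) × (ℕ → ℤ)) :=
  {p | ∀ n, (p.2 n : ℝ) ≤ 28 ^ (n + 1) * φ p.1 ∧ 28 ^ (n + 1) * φ p.1 ≤ p.2 n + 1}

variable {φ}

lemma isClosed_par (hφ : Continuous φ) : IsClosed (Par φ) := by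
  have : Par φ = ⋂ n, ({p | (p.2 n : ℝ) ≤ 28 ^ (n + 1) * φ p.1} ∩
      {p | 28 ^ (n + 1) * φ p.1 ≤ p.2 n + 1}) := by
    ext p; simp [Par]
  rw [this]
  refine isClosed_iInter fun n => ?_
  have h1 : Continuous (fun p : (ℕ → ℕ) × (ℕ → ℤ) => ((p.2 n : ℤ) : ℝ)) :=
    (continuous_of_discreteTopology (f := fun m : ℤ => (m : ℝ))).comp
      ((continuous_apply n).comp continuous_snd)
  have h2 : Continuous (fun p : (ℕ → ℕ) × (ℕ → ℤ) => 28 ^ (n + 1) * φ p.1) :=
    continuous_const.mul (hφ.comp continuous_fst)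
  exact (isClosed_le h1 h2).inter (isClosed_le h2 (h1.add continuous_const))

lemma exists_par (w : ℕ → ℕ) : ∃ p ∈ Par φ, p.1 = w :=
  ⟨(w, fun n => ⌊28 ^ (n + 1) * φ w⌋), fun _ => ⟨Int.floor_le _, (Int.lt_floor_add_one _).le⟩, rfl⟩

lemma gg_level (p : (ℕ → ℕ) × (ℕ → ℤ)) (n : ℕ) :
    ∃ m : ℤ, Good (msg p n) m ∧ Good (msg p n) (m + p.2 n) ∧ Good (msg p n) (m + p.2 n + 1) ∧
      (m : ℝ) ≤ 28 ^ (n + 1) * gg p ∧ 28 ^ (n + 1) * gg p ≤ m + 1 := by
  obtain ⟨M, hM⟩ := S_level (z := fun n => dig (msg p n) (p.2 n)) (C := 27)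
    (fun n => abs_dig_le _ _) n
  obtain ⟨h0, h1, h2, h3, h4⟩ := dig_spec (msg p n) (p.2 n)
  have h5 : 0 ≤ S (fun k => (fun n => dig (msg p n) (p.2 n)) (n + 1 + k)) :=
    S_nonneg fun k => (dig_spec _ _).1
  have h6 := abs_S_le (z := fun k => (fun n => dig (msg p n) (p.2 n)) (n + 1 + k)) (C := 27)
    (fun n => abs_dig_le _ _)
  rw [abs_of_nonneg h5] at h6
  refine ⟨28 * M + dig (msg p n) (p.2 n), good_congr M rfl h2, good_congr M ?_ h3,
    good_congr M ?_ h4, ?_, ?_⟩
  · ring
  · ring
  · unfold gg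
    rw [hM]
    linarith
  · unfold gg
    rw [hM]
    push_cast at h6 ⊢
    linarith

lemma lev_gg (p : (ℕ → ℕ) × (ℕ → ℤ)) (n : ℕ) : Lev (msg p n) n (gg p) := by
  obtain ⟨m, h1, -, -, h2, h3⟩ := gg_level p n
  exact ⟨m, h1, h2, h3⟩

lemma lev_gg_add {p : (ℕ → ℕ) × (ℕ → ℤ)} (hp : p ∈ Par φ) (n : ℕ) :
    Lev (msg p n) n (gg p + φ p.1) := by
  obtain ⟨m, -, h1, h1', h2, h3⟩ := gg_level p n
  obtain ⟨h4, h5⟩ := hp n
  have e : (28 : ℝ) ^ (n + 1) * (gg p + φ p.1) =
    28 ^ (n + 1) * gg p + 28 ^ (n + 1) * φ p.1 := by ring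
  by_cases hc : (28 : ℝ) ^ (n + 1) * (gg p + φ p.1) ≤ (m + p.2 n : ℤ) + 1
  · exact ⟨m + p.2 n, h1, by push_cast; linarith, hc⟩
  · refine ⟨m + p.2 n + 1, h1', ?_, ?_⟩
    · push_cast at hc ⊢; linarith
    · push_cast; linarith

lemma isClosed_lev (ε : Bool) (n : ℕ) : IsClosed {t | Lev ε n t} := by
  have : {t | Lev ε n t} = (fun t : ℝ => 28 ^ (n + 1) * t) ⁻¹'
      ⋃ m : {m : ℤ // Good ε m}, Icc (m.1 : ℝ) (m.1 + 1) := by
    ext t
    simp only [Lev, mem_ofPred_eq, mem_preimage, mem_iUnion, mem_Icc, Subtype.exists, exists_prop]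
  rw [this]
  refine IsClosed.preimage (by fun_prop) ?_
  refine LocallyFinite.isClosed_iUnion ?_ fun m => isClosed_Icc
  intro x
  refine ⟨Metric.ball x 1, Metric.ball_mem_nhds x one_pos, ?_⟩
  have hfin : Set.Finite {m : ℤ | (⌊x⌋ - 3 : ℤ) ≤ m ∧ m ≤ ⌊x⌋ + 3} := Set.finite_Icc _ _
  refine Set.Finite.subset (hfin.preimage (f := Subtype.val) Subtype.val_injective.injOn) ?_
  rintro ⟨m, hm⟩ ⟨y, hy1, hy2⟩
  simp only [mem_Icc] at hy1
  rw [Metric.mem_ball, Real.dist_eq, abs_lt] at hy2
  have h1 := Int.floor_le x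
  have h2 := Int.lt_floor_add_one x
  simp only [mem_preimage, mem_ofPred_eq]
  constructor
  · have : ((⌊x⌋ - 3 : ℤ) : ℝ) < m := by push_cast; linarith [hy1.2, hy2.1]
    exact_mod_cast this.le
  · have : (m : ℝ) < ((⌊x⌋ + 3 : ℤ) : ℝ) := by push_cast; linarith [hy1.1, hy2.2]
    exact_mod_cast this.le

/-- If a continuous map `h` on the closed set `W` of parameters carries at each level the message
of its argument, then its image is `Gδ`. -/
lemma isGδ_image {W : Set ((ℕ → ℕ) × (ℕ → ℤ))} (hW : IsClosed W)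
    {h : (ℕ → ℕ) × (ℕ → ℤ) → ℝ} (hc : Continuous h)
    (hl : ∀ p ∈ W, ∀ n, Lev (msg p n) n (h p)) : IsGδ (h '' W) := by
  have key : h '' W = closure (h '' W) ∩
      ((⋂ i, ⋃ m, {t | Lev false (idx.symm (Sum.inl (i, m))) t}ᶜ) ∩
       (⋂ i, ⋃ m, {t | Lev false (idx.symm (Sum.inr (i, m))) t}ᶜ)) := by
    apply Subset.antisymm
    · intro t ht
      refine ⟨subset_closure ht, ?_⟩
      obtain ⟨p, hp, rfl⟩ := ht
      constructor
      · refine mem_iInter.mpr fun i => mem_iUnion.mpr ⟨p.1 i, ?_⟩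
        intro hf
        have := hl p hp (idx.symm (Sum.inl (i, p.1 i)))
        rw [msg_inl] at this
        simp only [decide_true] at this
        exact lev_disjoint hf this
      · refine mem_iInter.mpr fun i => mem_iUnion.mpr ⟨p.2 i, ?_⟩
        intro hf
        have := hl p hp (idx.symm (Sum.inr (i, p.2 i)))
        rw [msg_inr] at this
        simp only [decide_true] at this
        exact lev_disjoint hf this
    · rintro t ⟨ht, ht1, ht2⟩
      -- a filter on parameters along which `h` tends to `t`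
      let F : Filter ((ℕ → ℕ) × (ℕ → ℤ)) := comap h (𝓝 t) ⊓ 𝓟 W
      have hF : F.NeBot := by
        rw [mem_closure_iff_nhds] at ht
        refine Filter.inf_principal_neBot_iff.mpr ?_
        intro U hU
        obtain ⟨V, hV, hVU⟩ := Filter.mem_comap.mp hU
        obtain ⟨y, hyV, ⟨p, hp, rfl⟩⟩ := ht V hV
        exact ⟨p, hVU hyV, hp⟩
      have hFt : Tendsto h F (𝓝 t) := tendsto_comap.mono_left inf_le_left
      have hFW : ∀ᶠ p in F, p ∈ W := mem_inf_of_right (mem_principal_self W)
      have ev : ∀ n, ¬ Lev false n t → ∀ᶠ p in F, msg p n = true := by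
        intro n hn
        have hopen : IsOpen {t | Lev false n t}ᶜ := (isClosed_lev false n).isOpen_compl
        have h1 : ∀ᶠ p in F, h p ∈ {t | Lev false n t}ᶜ := hFt (hopen.mem_nhds hn)
        filter_upwards [h1, hFW] with p hp1 hp2
        by_contra hne
        have h2 : msg p n = false := by simpa using hne
        have h3 := hl p hp2 n
        rw [h2] at h3
        exact hp1 h3
      have h1 : ∀ i, ∃ m : ℕ, ∀ᶠ p in F, p.1 i = m := by
        intro i
        obtain ⟨m, hm⟩ := mem_iUnion.mp (mem_iInter.mp ht1 i)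
        refine ⟨m, ?_⟩
        filter_upwards [ev _ hm] with p hp
        rw [msg_inl] at hp
        simpa using hp
      have h2 : ∀ i, ∃ m : ℤ, ∀ᶠ p in F, p.2 i = m := by
        intro i
        obtain ⟨m, hm⟩ := mem_iUnion.mp (mem_iInter.mp ht2 i)
        refine ⟨m, ?_⟩
        filter_upwards [ev _ hm] with p hp
        rw [msg_inr] at hp
        simpa using hp
      choose w hw using h1
      choose j hj using h2
      have hlim : F ≤ 𝓝 (w, j) := by
        have a1 : Tendsto (fun p : (ℕ → ℕ) × (ℕ → ℤ) => p.1) F (𝓝 w) := by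
          rw [tendsto_pi_nhds]
          intro i
          exact tendsto_nhds_of_eventually_eq (hw i)
        have a2 : Tendsto (fun p : (ℕ → ℕ) × (ℕ → ℤ) => p.2) F (𝓝 j) := by
          rw [tendsto_pi_nhds]
          intro i
          exact tendsto_nhds_of_eventually_eq (hj i)
        exact a1.prodMk_nhds a2
      have hmem : (w, j) ∈ W := by
        apply hW.mem_of_tendsto (f := id) (b := F) hlim hFW
      refine ⟨(w, j), hmem, ?_⟩
      exact tendsto_nhds_unique ((hc.tendsto _).mono_left hlim) hFt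
  rw [key]
  refine isClosed_closure.isGδ.inter ((IsGδ.iInter_of_isOpen fun i => ?_).inter
    (IsGδ.iInter_of_isOpen fun i => ?_))
  · exact isOpen_iUnion fun m => (isClosed_lev _ _).isOpen_compl
  · exact isOpen_iUnion fun m => (isClosed_lev _ _).isOpen_compl

lemma main : ∃ B : Set ℝ, IsGδ B ∧ ∀ κ : Cardinal.{0}, HasDisjointTranslates B κ ↔ κ ≤ ℵ₁ := by
  obtain ⟨φ, hφ, hr⟩ : ∃ φ : (ℕ → ℕ) → ℝ, Continuous φ ∧ range φ = AA := by
    have := analyticSet_AA
    rw [MeasureTheory.AnalyticSet] at this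
    rcases this with h | h
    · exfalso
      have h0 : (0 : ℝ) ∈ AA := by
        by_contra hn
        obtain ⟨a, b, hab, hd⟩ := (notMem_AA_iff 0).mp hn
        exact hab.ne (kk_injective (by simp only [diff] at hd; linarith))
      rw [h] at h0
      exact h0
    · exact h
  let B : Set ℝ := gg '' Par φ ∪ (fun p => gg p + φ p.1) '' Par φ
  have hW : IsClosed (Par φ) := isClosed_par hφ
  have hB : IsGδ B :=
    (isGδ_image hW continuous_gg fun p _ n => lev_gg p n).union
      (isGδ_image hW (continuous_gg.add (hφ.comp continuous_fst)) fun p hp n => lev_gg_add hp n)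
  -- elements of `B` with different messages do not differ by an element of `range diff`
  have hBlev : ∀ b ∈ B, ∃ p ∈ Par φ, (b = gg p ∨ b = gg p + φ p.1) ∧ ∀ n, Lev (msg p n) n b := by
    rintro b (⟨p, hp, rfl⟩ | ⟨p, hp, rfl⟩)
    · exact ⟨p, hp, Or.inl rfl, fun n => lev_gg p n⟩
    · exact ⟨p, hp, Or.inr rfl, fun n => lev_gg_add hp n⟩
  have hdiff : ∀ a b, Adj a b → ∀ s ∈ B, ∀ s' ∈ B, s - s' ≠ diff (a, b) := by
    intro a b hab s hs s' hs' heq
    obtain ⟨p, hp, h1, h2⟩ := hBlev s hs
    obtain ⟨p', hp', h1', h2'⟩ := hBlev s' hs'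
    have hpp : p = p' := by
      by_contra hne
      obtain ⟨n, hn⟩ := Function.ne_iff.mp fun h => hne (msg_injective h)
      exact lev_sep' hn (h2 n) (h2' n) (a, b) heq
    subst hpp
    have hAA : φ p.1 ∈ AA := by rw [← hr]; exact mem_range_self _
    have n1 : diff (a, b) ∉ AA := (notMem_AA_iff _).mpr ⟨a, b, hab, rfl⟩
    have n2 : diff (b, a) ∉ AA := (notMem_AA_iff _).mpr ⟨b, a, hab.symm, rfl⟩
    have n3 : diff (a, b) ≠ 0 := by
      intro h
      exact hab.ne (kk_injective (by simp only [diff] at h; linarith))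
    have n4 := diff_swap a b
    rcases h1 with rfl | rfl <;> rcases h1' with rfl | rfl
    · exact n3 (by linarith)
    · exact n2 (by rwa [show diff (b, a) = φ p.1 by linarith])
    · exact n1 (by rwa [show diff (a, b) = φ p.1 by linarith])
    · exact n3 (by linarith)
  have hsub : ∀ X : Set ℝ,
      (∀ x ∈ X, ∀ y ∈ X, x ≠ y → Disjoint ((fun b => b + x) '' B) ((fun b => b + y) '' B)) →
      #X ≤ ℵ₁ := by
    intro X hX
    apply card_le
    intro x hx y hy hxy hmem
    rw [← hr] at hmem
    obtain ⟨w, hw⟩ := hmem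
    obtain ⟨p, hp, hpw⟩ := exists_par (φ := φ) w
    have d := hX x hx y hy hxy
    rw [Set.disjoint_left] at d
    refine d (a := gg p + x) ⟨gg p, Or.inl ⟨p, hp, rfl⟩, rfl⟩
      ⟨gg p + φ p.1, Or.inr ⟨p, hp, rfl⟩, ?_⟩
    simp only [hpw, hw]
    ring
  refine ⟨B, hB, fun κ => ⟨?_, ?_⟩⟩
  · rintro ⟨X, rfl, hX⟩
    exact hsub X hX
  · intro hκ
    obtain ⟨P, hP, hadj⟩ := exists_clique
    have hK : #(kk '' P) = ℵ₁ := by
      rw [Cardinal.mk_image_eq (fun _ _ h => kk_injective h), hP]
    obtain ⟨X, hXP, hX⟩ := Cardinal.le_mk_iff_exists_subset.mp (hK.symm ▸ hκ : κ ≤ #(kk '' P))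
    refine ⟨X, hX, ?_⟩
    intro x hx y hy hxy
    obtain ⟨a, ha, rfl⟩ := hXP hx
    obtain ⟨b, hb, rfl⟩ := hXP hy
    have hab : a ≠ b := fun h => hxy (by rw [h])
    rw [Set.disjoint_left]
    rintro _ ⟨s, hs, rfl⟩ ⟨s', hs', h⟩
    simp only at h
    refine hdiff a b (hadj a ha b hb hab) s' hs' s hs ?_
    simp only [diff]
    linarith

/-- **Main theorem.** (Stated and proved without any assumption beyond the usual axioms.)

There is a `Gδ` set `B` of reals such that, for every cardinal `κ`, `B` has `κ` many pairwise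
disjoint translates if and only if `κ ≤ ℵ₁`. Consequently the assertion that every Borel set of
reals with uncountably many pairwise disjoint translates has continuum many pairwise disjoint
translates holds if and only if the continuum hypothesis `𝔠 = ℵ₁` holds. -/
theorem result :
    (∃ B : Set ℝ, IsGδ B ∧ ∀ κ : Cardinal.{0}, HasDisjointTranslates B κ ↔ κ ≤ ℵ₁) ∧
    ((∀ B : Set ℝ, MeasurableSet B → (∃ κ > ℵ₀, HasDisjointTranslates B κ) →
        HasDisjointTranslates B 𝔠) ↔ (𝔠 : Cardinal.{0}) = ℵ₁) := by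
  refine ⟨main, ?_, ?_⟩
  · intro h
    obtain ⟨B, hB, hκ⟩ := main
    have h1 := (hκ 𝔠).mp (h B hB.measurableSet ⟨ℵ₁, aleph0_lt_aleph_one, (hκ ℵ₁).mpr le_rfl⟩)
    exact le_antisymm h1 (aleph_one_le_continuum)
  · rintro h B - ⟨κ, hκ, X, hX, hd⟩
    have h1 : #X = 𝔠 := by
      apply le_antisymm
      · rw [← Cardinal.mk_real]; exact Cardinal.mk_set_le X
      · have h2 : (𝔠 : Cardinal.{0}) ≤ #X := by
          rw [h, ← succ_aleph0, hX]; exact Order.succ_le_of_lt hκ
        exact h2
    exact ⟨X, h1, hd⟩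

end Pool.Agent.Results.MP_6a38e0_lc.DisjointTranslates
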